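import Mathlib
import Pool.Agent.Lib.Pcb17aeH.Core

set_option autoImplicit false

open Set

namespace Pool.Agent.Results.MP_cb17ae_an.AutomaticContinuity

open Pool.Agent.Lib.Pcb17aeH

/-- Every epimorphism `θ` from `C^∞([0,1])` onto a Banach algebra `B` (complex, complete norm,
submultiplicative; neither commutative nor unital) is continuous for the Fréchet topology; more
precisely `B` has finite dimension, `θ` kills a polynomial `∏ (x - t)`, `t ∈ s`, with zeros in
`[0,1]`, and `‖θ f‖` is bounded by the seminorm of order `card s - 1`. -/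
theorem result {B : Type*} [NonUnitalNormedRing B] [NormedSpace ℂ B] [IsScalarTower ℂ B B]
    [SMulCommClass ℂ B B] [CompleteSpace B] (θ : Cinf → B) (hθ : IsEpimorphism θ) :
    Continuous θ ∧
    ∃ s : Multiset (Icc (0 : ℝ) 1),
      (∀ F : Cinf, (∀ x, val F x = (s.map fun t : Icc (0 : ℝ) 1 => (((x : ℝ) - t : ℝ) : ℂ)).prod) →
        θ F = 0) ∧
      FiniteDimensional ℂ B ∧ Module.finrank ℂ B ≤ Multiset.card s ∧
      ∃ C : ℝ, ∀ f : Cinf, ‖θ f‖ ≤ C * p (Multiset.card s - 1) f := by
  classical
  obtain ⟨hadd, hmul, hsmul, hsurj⟩ := hθ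
  have one_mul' : ∀ b : B, θ 1 * b = b := by
    intro b
    obtain ⟨f, rfl⟩ := hsurj b
    rw [← hmul, one_mul]
  have mul_one' : ∀ b : B, b * θ 1 = b := by
    intro b
    obtain ⟨f, rfl⟩ := hsurj b
    rw [← hmul, mul_one]
  let r : Ring B := { (inferInstance : NonUnitalRing B) with
    one := θ 1
    one_mul := one_mul'
    mul_one := mul_one' }
  let nr : NormedRing B := { r, (inferInstance : NonUnitalNormedRing B) with }
  let al : Algebra ℂ B := Algebra.ofModule (fun c x y => smul_mul_assoc c x y)
    (fun c x y => mul_smul_comm c x y)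
  let na : NormedAlgebra ℂ B := { al with norm_smul_le := fun c x => norm_smul_le c x }
  let θ' : Cinf →ₐ[ℂ] B := AlgHom.ofLinearMap
    { toFun := θ
      map_add' := hadd
      map_smul' := hsmul } rfl hmul
  obtain ⟨s, hs, hfin, hrank, C, hC0, hC⟩ := core θ' hsurj
  have hb : ∀ f : Cinf, ‖θ f‖ ≤ (C * (Multiset.card s)) * p (Multiset.card s - 1) f := by
    intro f
    refine (hC f).trans ?_
    rw [mul_assoc]
    refine mul_le_mul_of_nonneg_left ?_ hC0
    have h1 : ∀ j ∈ Finset.range (Multiset.card s), ‖D j f‖ ≤ p (Multiset.card s - 1) f := by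
      intro j hj
      rw [p_apply]
      refine le_pFun ?_ f
      rw [Finset.mem_range] at hj
      omega
    refine (Finset.sum_le_sum h1).trans ?_
    rw [Finset.sum_const, Finset.card_range, nsmul_eq_mul]
  refine ⟨?_, s, ?_, hfin, hrank, C * (Multiset.card s), hb⟩
  · have hW : WithSeminorms p := ⟨rfl⟩
    have hlin : Continuous ((({ toFun := θ, map_add' := hadd, map_smul' := hsmul }
        : Cinf →ₗ[ℂ] B)) : Cinf → B) := by
      refine WithSeminorms.continuous_normedSpace_rng B hW _ ?_
      refine ⟨{Multiset.card s - 1}, ⟨C * (Multiset.card s), by positivity⟩, fun f => ?_⟩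
      rw [Finset.sup_singleton]
      exact hb f
    exact hlin
  · intro F hF
    have : F = prodX s := by
      apply Subtype.ext
      funext x
      have h1 := hF x
      have h2 := prodX_apply s x
      push_cast at h1
      exact h1.trans h2.symm
    rw [this]
    exact hs

end Pool.Agent.Results.MP_cb17ae_an.AutomaticContinuity
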